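import Pool.Agent.MVD.Stmts

set_option autoImplicit false

/-! Squad MVD (MP_23468a_al), row NT3: a finite pentagon. -/

namespace Pool.Agent.MVD.H44

open Pool.Agent.Helper14_MV Pool.Agent.Helper2_MV Pool.Agent.MVD

/-- `z | l | x` -/
def Wd (l : List ℕ) : List ℕ := [6, 2] ++ l ++ [5, 0]

/-- the shape of the words equivalent to `z | l | x` -/
theorem shapeW {β : FIC} (h2 : Iso2 β) (h3 : Iso3 β) (hDEC : DecStmt) (hKP2 : Kp2Stmt)
    (hKPL : KplStmt) (hSQ : ¬ SQ β) {l w' : List ℕ} (hl : l.Perm [3, 3, 6, 0])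
    (h : RR β (Wd l) w') : ∃ l', l'.Perm [3, 3, 6, 0] ∧ w' = Wd l' := by
  set B : ℕ → List ℕ := fun r => if r = 0 then [6] else if r = 1 then l else [0] with hB
  have hBw : Wd l ++ [8] = Bw [0, 1, 2] B := by
    simp [Wd, Bw, hB]
  have hw : RR β (Bw [0, 1, 2] B) (w' ++ [8]) := by
    rw [← hBw]
    exact h.append (RR.refl [8])
  have hlm : ∀ c, c ∈ l ↔ c = 3 ∨ c = 6 ∨ c = 0 := by
    intro c
    rw [hl.mem_iff]
    simp only [List.mem_cons, List.not_mem_nil, or_false]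
    tauto
  have hR : ([0, 1, 2] : List ℕ).Nodup := by decide
  have hSF : ∀ r ∈ ([0, 1, 2] : List ℕ), SFr (B r) := by
    intro r hr c hc
    simp only [List.mem_cons, List.not_mem_nil, or_false] at hr
    rcases hr with rfl | rfl | rfl
    · simp only [hB, if_true, List.mem_singleton] at hc
      omega
    · have hc : c ∈ l := hc
      rw [hlm] at hc
      omega
    · have hc : c ∈ [0] := hc
      rw [List.mem_singleton] at hc
      omega
  obtain ⟨B', e, hB', he, hw'⟩ := hDEC β h3 [0, 1, 2] B (w' ++ [8]) hR hSF hw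
  rw [hw'] at hw
  have hcnt : ∀ d, (∀ q ∈ ([0, 1, 2] : List ℕ), (B' q).count d = (B q).count d) ∧
      e.count d = 0 := by
    intro d
    have hl6 : l.count 6 = 1 := hl.count_eq 6
    have hl0 : l.count 0 = 1 := hl.count_eq 0
    have hl3 : l.count 3 = 2 := hl.count_eq 3
    by_cases hd3 : d % 3 = 2
    · refine ⟨fun q hq => ?_, ?_⟩
      · rw [List.count_eq_zero.2 (fun h => hB' q d h hd3),
          List.count_eq_zero.2 (fun h => hSF q hq d h hd3)]
      · exact List.count_eq_zero.2 (fun h => he d h hd3)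
    · by_cases hd6 : d = 6
      · subst hd6
        have hc : ∀ q ∈ ([0, 1, 2] : List ℕ), (B q).count 6 = if q = 0 ∨ q = 1 then 1 else 0 := by
          intro q hq
          simp only [List.mem_cons, List.not_mem_nil, or_false] at hq
          rcases hq with rfl | rfl | rfl
          · rfl
          · exact hl6
          · rfl
        obtain ⟨h4, h5⟩ := hKP2 β h2 h3 [0, 1, 2] B B' e hR hSF (fun r _ => hB' r) he hw
          6 0 1 hd3 (by simp) (by simp) (by omega) hc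
        exact ⟨fun q hq => (h4 q hq).trans (hc q hq).symm, h5⟩
      · by_cases hd0 : d = 0
        · subst hd0
          have hc : ∀ q ∈ ([0, 1, 2] : List ℕ),
              (B q).count 0 = if q = 1 ∨ q = 2 then 1 else 0 := by
            intro q hq
            simp only [List.mem_cons, List.not_mem_nil, or_false] at hq
            rcases hq with rfl | rfl | rfl
            · rfl
            · exact hl0
            · rfl
          obtain ⟨h4, h5⟩ := hKP2 β h2 h3 [0, 1, 2] B B' e hR hSF (fun r _ => hB' r) he hw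
            0 1 2 hd3 (by simp) (by simp) (by omega) hc
          exact ⟨fun q hq => (h4 q hq).trans (hc q hq).symm, h5⟩
        · by_cases hdy : d = 3
          · subst hdy
            have hc : ∀ q ∈ ([0, 1, 2] : List ℕ), (B q).count 3 = if q = 1 then 2 else 0 := by
              intro q hq
              simp only [List.mem_cons, List.not_mem_nil, or_false] at hq
              rcases hq with rfl | rfl | rfl
              · rfl
              · exact hl3
              · rfl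
            rcases hKPL β h2 h3 [0, 1, 2] B B' e hR hSF (fun r _ => hB' r) he hw
              3 1 hd3 (by simp) hc with ⟨⟨s, _, h4, h5⟩, h6⟩ | ⟨_, _, h6⟩
            · have hs : s = 1 := h5.resolve_right hSQ
              subst hs
              exact ⟨fun q hq => (h4 q hq).trans (hc q hq).symm, h6⟩
            · exact absurd h6 hSQ
          · have hnot : d ∉ Bw [0, 1, 2] B := by
              rw [← hBw]
              unfold Wd
              simp only [List.mem_append, List.mem_cons, List.not_mem_nil, or_false, hlm]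
              omega
            have hnot' := hw.content h3 hnot
            have hnotB : ∀ q ∈ ([0, 1, 2] : List ℕ), d ∉ B q := by
              intro q hq h4
              exact hnot (List.mem_flatMap.2 ⟨q, hq, List.mem_append_left _ h4⟩)
            rw [List.mem_append] at hnot'
            refine ⟨fun q hq => ?_, ?_⟩
            · rw [List.count_eq_zero.2 (hnotB q hq), List.count_eq_zero.2]
              intro h4
              exact hnot' (Or.inl (List.mem_flatMap.2 ⟨q, hq, List.mem_append_left _ h4⟩))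
            · exact List.count_eq_zero.2 (fun h4 => hnot' (Or.inr h4))
  have henil : e = [] := by
    rw [List.eq_nil_iff_forall_not_mem]
    intro a ha
    exact List.count_eq_zero.1 (hcnt a).2 ha
  have hperm : ∀ q ∈ ([0, 1, 2] : List ℕ), (B' q).Perm (B q) := by
    intro q hq
    rw [List.perm_iff_count]
    exact fun d => (hcnt d).1 q hq
  have h0 : B' 0 = [6] := List.perm_singleton.1 (hperm 0 (by simp))
  have h1 : (B' 1).Perm l := hperm 1 (by simp)
  have h2' : B' 2 = [0] := List.perm_singleton.1 (hperm 2 (by simp))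
  refine ⟨B' 1, h1.trans hl, ?_⟩
  have h4 : w' ++ [8] = Wd (B' 1) ++ [8] := by
    rw [hw', henil]
    simp [Wd, Bw, h0, h2']
  exact List.append_cancel_right h4

def g1 (c : ℕ) : List ℕ :=
  if c = 6 then [0] else if c = 0 then [3] else if c = 3 then [] else [c]

def g2 (c : ℕ) : List ℕ :=
  if c = 3 then [3] else if c = 0 then [0] else if c = 5 then [2] else []

def g3 (c : ℕ) : List ℕ :=
  if c = 6 then [0] else if c = 2 then [2] else if c = 3 then [3] else []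

/-- the order of `z`, `x` -/
def dzx (l : List ℕ) : Bool := l.filter (fun c => decide (c ≠ 3)) == [6, 0]
/-- both `y` before `x` -/
def dyx (l : List ℕ) : Bool := l.filter (fun c => decide (c ≠ 6)) == [3, 3, 0]
/-- both `y` after `z` -/
def dyz (l : List ℕ) : Bool := l.filter (fun c => decide (c ≠ 0)) == [6, 3, 3]

theorem k1 : ∀ l ∈ List.permutations' [3, 3, 6, 0], ∀ l' ∈ List.permutations' [3, 3, 6, 0],
    dzx l = dzx l' ∨
      ((Wd l).flatMap g1 = [0, 2, 0, 3, 5, 3] ∧ (Wd l').flatMap g1 = [0, 2, 3, 0, 5, 3]) ∨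
      ((Wd l').flatMap g1 = [0, 2, 0, 3, 5, 3] ∧ (Wd l).flatMap g1 = [0, 2, 3, 0, 5, 3]) := by
  decide +kernel

theorem k2 : ∀ l ∈ List.permutations' [3, 3, 6, 0], ∀ l' ∈ List.permutations' [3, 3, 6, 0],
    dyx l = dyx l' ∨
      ((Wd l).flatMap g2 = [3, 3, 0, 2, 0] ∧ ((Wd l').flatMap g2 = [3, 0, 3, 2, 0] ∨
        (Wd l').flatMap g2 = [0, 3, 3, 2, 0])) ∨
      ((Wd l').flatMap g2 = [3, 3, 0, 2, 0] ∧ ((Wd l).flatMap g2 = [3, 0, 3, 2, 0] ∨
        (Wd l).flatMap g2 = [0, 3, 3, 2, 0])) := by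
  decide +kernel

theorem k3 : ∀ l ∈ List.permutations' [3, 3, 6, 0], ∀ l' ∈ List.permutations' [3, 3, 6, 0],
    dyz l = dyz l' ∨
      ((Wd l).flatMap g3 = [0, 2, 0, 3, 3] ∧ ((Wd l').flatMap g3 = [0, 2, 3, 0, 3] ∨
        (Wd l').flatMap g3 = [0, 2, 3, 3, 0])) ∨
      ((Wd l').flatMap g3 = [0, 2, 0, 3, 3] ∧ ((Wd l).flatMap g3 = [0, 2, 3, 0, 3] ∨
        (Wd l).flatMap g3 = [0, 2, 3, 3, 0])) := by
  decide +kernel

def LA : List (List ℕ) := [[3, 6, 3, 0], [3, 3, 6, 0]]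
def LB : List (List ℕ) := [[3, 6, 3, 0], [3, 3, 6, 0], [6, 3, 3, 0]]
def LC : List (List ℕ) := [[3, 6, 3, 0], [3, 3, 6, 0], [3, 6, 0, 3]]

theorem cA : ∀ l ∈ LA, ∀ l' ∈ List.permutations' [3, 3, 6, 0],
    dzx l = dzx l' → dyx l = dyx l' → dyz l = dyz l' → l' ∈ LA := by
  decide +kernel

theorem cB : ∀ l ∈ LB, ∀ l' ∈ List.permutations' [3, 3, 6, 0],
    dzx l = dzx l' → dyx l = dyx l' → l' ∈ LB := by
  decide +kernel

theorem cC : ∀ l ∈ LC, ∀ l' ∈ List.permutations' [3, 3, 6, 0],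
    dzx l = dzx l' → dyz l = dyz l' → l' ∈ LC := by
  decide +kernel

theorem chkA1 : chkP [3, 0, 3, 2, 0] [3, 3, 0, 2, 0] (LA.map Wd) = true := by decide +kernel
theorem chkA2 : chkP [3, 3, 0, 2, 0] [3, 0, 3, 2, 0] (LA.map Wd) = true := by decide +kernel
theorem chkB1 : chkP [6, 2, 6, 3, 0, 3, 5, 0] [6, 2, 3, 6, 0, 3, 5, 0] (LB.map Wd) = true := by
  decide +kernel
theorem chkB2 : chkP [6, 2, 3, 6, 0, 3, 5, 0] [6, 2, 6, 3, 0, 3, 5, 0] (LB.map Wd) = true := by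
  decide +kernel
theorem chkC1 : chkP [6, 2, 3, 6, 3, 0, 5, 0] [6, 2, 3, 6, 0, 3, 5, 0] (LC.map Wd) = true := by
  decide +kernel
theorem chkC2 : chkP [6, 2, 3, 6, 0, 3, 5, 0] [6, 2, 3, 6, 3, 0, 5, 0] (LC.map Wd) = true := by
  decide +kernel

/-- a set of words given by the three data is kept by `β` -/
theorem keepW {β : FIC} (h2 : Iso2 β) (h3 : Iso3 β) (hDEC : DecStmt) (hKP2 : Kp2Stmt)
    (hKPL : KplStmt) (hSQ : ¬ SQ β) (hS2 : ¬ S2 β) (hA1 : A1 β) (hB3 : B3 β) (hA2 : ¬ A2 β)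
    (hB2 : ¬ B2 β) {T : List (List ℕ)} (hT : ∀ l ∈ T, l ∈ List.permutations' [3, 3, 6, 0])
    (hcl : ∀ l ∈ T, ∀ l' ∈ List.permutations' [3, 3, 6, 0],
      dzx l = dzx l' → dyx l = dyx l' → dyz l = dyz l' → l' ∈ T) :
    ∀ w w', RR β w w' → w ∈ T.map Wd → w' ∈ T.map Wd := by
  intro w w' hw hwT
  obtain ⟨l, hl, rfl⟩ := List.mem_map.1 hwT
  have hlp := hT l hl
  obtain ⟨l', hl', rfl⟩ := shapeW h2 h3 hDEC hKP2 hKPL hSQ (List.mem_permutations'.1 hlp) hw
  have hlp' := List.mem_permutations'.2 hl'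
  refine List.mem_map.2 ⟨l', hcl l hl l' hlp' ?_ ?_ ?_, rfl⟩
  · rcases k1 l hlp l' hlp' with h | ⟨h, h'⟩ | ⟨h, h'⟩
    · exact h
    · have h4 := hw.sub g1
      rw [h, h'] at h4
      exact absurd h4 hS2
    · have h4 := hw.sub g1
      rw [h, h'] at h4
      exact absurd h4.symm hS2
  · have hyyx : ∀ u, RR β [3, 3, 0, 2, 0] u → u = [3, 0, 3, 2, 0] ∨ u = [0, 3, 3, 2, 0] →
        False := by
      intro u hu hu'
      rcases hu' with rfl | rfl
      · exact hA2 hu.symm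
      · exact hA2 (β.trans hA1 hu.symm)
    rcases k2 l hlp l' hlp' with h | ⟨h, h'⟩ | ⟨h, h'⟩
    · exact h
    · have h4 := hw.sub g2
      rw [h] at h4
      exact absurd (hyyx _ h4 h') id
    · have h4 := hw.symm.sub g2
      rw [h] at h4
      exact absurd (hyyx _ h4 h') id
  · have hzyy : ∀ u, RR β [0, 2, 0, 3, 3] u → u = [0, 2, 3, 0, 3] ∨ u = [0, 2, 3, 3, 0] →
        False := by
      intro u hu hu'
      rcases hu' with rfl | rfl
      · exact hB2 hu.symm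
      · exact hB2 (β.trans hB3 hu.symm)
    rcases k3 l hlp l' hlp' with h | ⟨h, h'⟩ | ⟨h, h'⟩
    · exact h
    · have h4 := hw.sub g3
      rw [h] at h4
      exact absurd (hzyy _ h4 h') id
    · have h4 := hw.symm.sub g3
      rw [h] at h4
      exact absurd (hzyy _ h4 h') id

theorem nt3 (hFIN : FinStmt) (hPEN : PenStmt) (hGEN : GenStmt) (hDEC : DecStmt)
    (hKP2 : Kp2Stmt) (hKPL : KplStmt) (hCTY : CtyStmt) : Nt3Stmt := by
  intro β hM h2 h3 hA hB hS2
  by_contra hcon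
  rw [not_or] at hcon
  obtain ⟨hA2, hB2⟩ := hcon
  have hA1 : A1 β := hA.resolve_right hA2
  have hB3 : B3 β := hB.resolve_left hB2
  have hSQ : ¬ SQ β := by
    intro hSQ
    have h4 := ((hCTY β).2.2.2.2 hSQ) [] [0] [2, 0] 3
    have h4 : RR β [3, 3, 0, 2, 0] [0, 3, 3, 2, 0] := h4
    exact hA2 (β.trans hA1 h4.symm)
  obtain ⟨ρ, hβρ, hGρ, hminρ, hkρ⟩ := hGEN β (fun e => e = ([3, 0, 3, 2, 0], [3, 3, 0, 2, 0]))
  obtain ⟨σ, hβσ, hGσ, _, hkσ⟩ := hGEN β
    (fun e => e = ([6, 2, 6, 3, 0, 3, 5, 0], [6, 2, 3, 6, 0, 3, 5, 0]))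
  obtain ⟨τ, hβτ, hGτ, _, hkτ⟩ := hGEN β
    (fun e => e = ([6, 2, 3, 6, 3, 0, 5, 0], [6, 2, 3, 6, 0, 3, 5, 0]))
  have eρ : RR ρ [3, 0, 3, 2, 0] [3, 3, 0, 2, 0] := hGρ _ rfl
  have eσ : RR σ [6, 2, 6, 3, 0, 3, 5, 0] [6, 2, 3, 6, 0, 3, 5, 0] := hGσ _ rfl
  have eτ : RR τ [6, 2, 3, 6, 3, 0, 5, 0] [6, 2, 3, 6, 0, 3, 5, 0] := hGτ _ rfl
  have hρτ : ρ ≤ τ := by
    apply hminρ τ hβτ
    rintro e rfl
    exact (eτ.sub (fun c => if c = 3 then [3] else if c = 0 then [0] else if c = 5 then [2]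
      else [])).symm
  have hTA : ∀ l ∈ LA, l ∈ List.permutations' [3, 3, 6, 0] := by decide +kernel
  have hTB : ∀ l ∈ LB, l ∈ List.permutations' [3, 3, 6, 0] := by decide +kernel
  have hTC : ∀ l ∈ LC, l ∈ List.permutations' [3, 3, 6, 0] := by decide +kernel
  have keepA := hkρ (fun w => w ∈ LA.map Wd)
    (keepW h2 h3 hDEC hKP2 hKPL hSQ hS2 hA1 hB3 hA2 hB2 hTA cA)
    (by
      rintro e rfl φ M N
      exact ⟨hFIN _ _ _ (by decide) chkA1 φ M N, hFIN _ _ _ (by decide) chkA2 φ M N⟩)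
  have keepB := hkσ (fun w => w ∈ LB.map Wd)
    (keepW h2 h3 hDEC hKP2 hKPL hSQ hS2 hA1 hB3 hA2 hB2 hTB
      (fun l hl l' hl' e1 e2 _ => cB l hl l' hl' e1 e2))
    (by
      rintro e rfl φ M N
      exact ⟨hFIN _ _ _ (by decide) chkB1 φ M N, hFIN _ _ _ (by decide) chkB2 φ M N⟩)
  have keepC := hkτ (fun w => w ∈ LC.map Wd)
    (keepW h2 h3 hDEC hKP2 hKPL hSQ hS2 hA1 hB3 hA2 hB2 hTC
      (fun l hl l' hl' e1 _ e3 => cC l hl l' hl' e1 e3))
    (by
      rintro e rfl φ M N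
      exact ⟨hFIN _ _ _ (by decide) chkC1 φ M N, hFIN _ _ _ (by decide) chkC2 φ M N⟩)
  refine hPEN β hM ρ σ τ (fun w => w ∈ LA.map Wd) (fun w => w ∈ LB.map Wd)
    (fun w => w ∈ LC.map Wd) hβρ hβσ hβτ hρτ keepA keepB keepC ?_ ?_
    [6, 2, 3, 6, 3, 0, 5, 0] [6, 2, 3, 6, 0, 3, 5, 0] (by decide) (by decide) eτ ?_
  · have h4 : ∀ w ∈ LA.map Wd, w ∈ LB.map Wd ∧ w ∈ LC.map Wd := by decide
    exact h4
  · have h4 : ∀ w ∈ LB.map Wd, w ∈ LC.map Wd → w ∈ LA.map Wd := by decide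
    exact h4
  · -- the chain
    have s1 : RR σ [6, 2, 3, 6, 0, 3, 5, 0] [6, 2, 6, 3, 0, 3, 5, 0] := eσ.symm
    have s2 : RR ρ [6, 2, 6, 3, 0, 3, 5, 0] [6, 2, 6, 3, 3, 0, 5, 0] :=
      (RR.refl (β := ρ) [6, 2, 6]).append (eρ.sub (fun c => if c = 2 then [5] else [c]))
    have s3 : RR σ [6, 2, 6, 3, 3, 0, 5, 0] [6, 2, 3, 6, 3, 0, 5, 0] :=
      (eσ.sub (fun c => if c = 0 then [] else if c = 5 then [0, 5, 0] else [c]))
    have l1 := FIC.le_sup_right ρ σ
    have l2 := FIC.le_sup_left ρ σ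
    have c1 : RR (FIC.sup ρ σ) [6, 2, 3, 6, 0, 3, 5, 0] [6, 2, 6, 3, 0, 3, 5, 0] := l1 _ _ s1
    have c2 : RR (FIC.sup ρ σ) [6, 2, 6, 3, 0, 3, 5, 0] [6, 2, 6, 3, 3, 0, 5, 0] := l2 _ _ s2
    have c3 : RR (FIC.sup ρ σ) [6, 2, 6, 3, 3, 0, 5, 0] [6, 2, 3, 6, 3, 0, 5, 0] := l1 _ _ s3
    exact RR.symm ((FIC.sup ρ σ).trans c1 ((FIC.sup ρ σ).trans c2 c3))

end Pool.Agent.MVD.H44
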