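import Pool.Agent.MVD.Stmts

set_option autoImplicit false

/-! Squad MVD (MP_23468a_al), row SHW: the shape of the words equivalent to `bw P Q m`. -/

namespace Pool.Agent.MVD.H44

open Pool.Agent.Helper14_MV Pool.Agent.Helper2_MV Pool.Agent.MVD

/-- the labels -/
def RL (P Q : List ℕ) : List ℕ := P.map (fun e => e + 1) ++ 0 :: Q.map (fun e => e + 1)

/-- the blocks -/
def BB (L : List ℕ) (r : ℕ) : List ℕ := if r = 0 then L else [3 * (r - 1) + 1]

theorem Wm_eq (P Q L : List ℕ) : Wm P Q L = Bw (RL P Q) (BB L) := rfl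

theorem mem_RL {P Q : List ℕ} {m : ℕ} (h : (P ++ Q).Perm (List.range m)) {q : ℕ} :
    q ∈ RL P Q ↔ q ≤ m := by
  have hm : ∀ i, (i ∈ P ∨ i ∈ Q) ↔ i < m := by
    intro i
    rw [← List.mem_append, h.mem_iff, List.mem_range]
  unfold RL
  rw [List.mem_append, List.mem_cons, List.mem_map, List.mem_map]
  constructor
  · rintro (⟨a, ha, rfl⟩ | rfl | ⟨a, ha, rfl⟩)
    · have := (hm a).1 (Or.inl ha)
      omega
    · omega
    · have := (hm a).1 (Or.inr ha)
      omega
  · intro hq
    rcases Nat.eq_zero_or_pos q with h0 | h0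
    · exact Or.inr (Or.inl h0)
    · rcases (hm (q - 1)).2 (by omega) with h1 | h1
      · exact Or.inl ⟨q - 1, h1, by omega⟩
      · exact Or.inr (Or.inr ⟨q - 1, h1, by omega⟩)

theorem nodup_RL {P Q : List ℕ} {m : ℕ} (h : (P ++ Q).Perm (List.range m)) : (RL P Q).Nodup := by
  unfold RL
  have h1 : (P.map (fun e => e + 1) ++ 0 :: Q.map (fun e => e + 1)).Perm
      (0 :: (P ++ Q).map (fun e => e + 1)) := by
    rw [List.map_append]
    exact List.perm_middle
  rw [h1.nodup_iff, List.nodup_cons]
  refine ⟨?_, ?_⟩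
  · rw [List.mem_map]
    rintro ⟨a, _, ha⟩
    omega
  · apply List.Nodup.map
    · intro a b hab
      have hab : a + 1 = b + 1 := hab
      omega
    · rw [h.nodup_iff]
      exact List.nodup_range

theorem mem_Bw {R : List ℕ} {B : ℕ → List ℕ} {c : ℕ} :
    c ∈ Bw R B ↔ ∃ r ∈ R, c ∈ B r ∨ c = 3 * r + 2 := by
  unfold Bw
  rw [List.mem_flatMap]
  simp only [List.mem_append, List.mem_singleton]

theorem filter_Bw (R : List ℕ) (B : ℕ → List ℕ) (p : ℕ → Bool) (hp : ∀ r, p (3 * r + 2) = true) :
    (Bw R B).filter p = Bw R (fun r => (B r).filter p) := by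
  induction R with
  | nil => rfl
  | cons r R ih =>
    unfold Bw at ih ⊢
    rw [List.flatMap_cons, List.flatMap_cons, List.filter_append, List.filter_append, ih]
    congr 2
    rw [List.filter_cons_of_pos (hp r)]
    rfl

theorem Bw_congr {R : List ℕ} {B B' : ℕ → List ℕ} (h : ∀ r ∈ R, B r = B' r) :
    Bw R B = Bw R B' := by
  unfold Bw
  apply List.flatMap_congr
  intro r hr
  rw [h r hr]

theorem Bw_split (R1 R2 : List ℕ) (s : ℕ) (B : ℕ → List ℕ) :
    Bw (R1 ++ s :: R2) B = Bw R1 B ++ (B s ++ (3 * s + 2) :: Bw R2 B) := by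
  unfold Bw
  rw [List.flatMap_append, List.flatMap_cons, List.append_assoc, List.cons_append,
    List.nil_append]

theorem mem_zs {D : List ℕ} {c : ℕ} : c ∈ zs D ↔ ∃ e ∈ D, 3 * e + 1 = c := by
  unfold zs
  rw [List.mem_map]

theorem count_zs {m i : ℕ} (hi : i < m) : (zs (List.range m)).count (3 * i + 1) = 1 := by
  apply List.count_eq_one_of_mem
  · unfold zs
    apply List.Nodup.map
    · intro a b hab
      have hab : 3 * a + 1 = 3 * b + 1 := hab
      omega
    · exact List.nodup_range
  · rw [mem_zs]
    exact ⟨i, List.mem_range.2 hi, rfl⟩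

theorem count_filter_ne (l : List ℕ) (d : ℕ) :
    (l.filter (fun c => decide (c ≠ 0))).count d = if d = 0 then 0 else l.count d := by
  by_cases h : d = 0
  · rw [if_pos h, List.count_eq_zero]
    intro h1
    rw [List.mem_filter] at h1
    simp [h] at h1
  · rw [if_neg h, List.count_filter (by simpa using h)]

theorem two_zero {l : List ℕ} {z : ℕ} (h1 : l.filter (fun c => decide (c ≠ 0)) = [z])
    (hz : z ≠ 0) (h2 : l.count 0 = 2) :
    l = [z, 0, 0] ∨ l = [0, z, 0] ∨ l = [0, 0, z] := by
  rw [List.filter_eq_cons_iff] at h1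
  obtain ⟨l1, l2, hl, h3, _, h4⟩ := h1
  rw [List.filter_eq_nil_iff] at h4
  have e1 : l1 = List.replicate l1.length 0 := by
    rw [List.eq_replicate_iff]
    refine ⟨rfl, fun b hb => ?_⟩
    have := h3 b hb
    simpa using this
  have e2 : l2 = List.replicate l2.length 0 := by
    rw [List.eq_replicate_iff]
    refine ⟨rfl, fun b hb => ?_⟩
    have := h4 b hb
    simpa using this
  generalize l1.length = a at e1
  generalize l2.length = b at e2
  subst e1 e2
  rw [hl, List.count_append, List.count_cons_of_ne hz, List.count_replicate_self,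
    List.count_replicate_self] at h2
  have hab : (a = 0 ∧ b = 2) ∨ (a = 1 ∧ b = 1) ∨ (a = 2 ∧ b = 0) := by omega
  rcases hab with ⟨rfl, rfl⟩ | ⟨rfl, rfl⟩ | ⟨rfl, rfl⟩
  · left
    rw [hl]
    rfl
  · right; left
    rw [hl]
    rfl
  · right; right
    rw [hl]
    rfl

theorem shw (hDEC : DecStmt) (hKP2 : Kp2Stmt) (hKPL : KplStmt) : ShwStmt := by
  intro β h2 h3 P Q m hPQ w' hw
  set L : List ℕ := 0 :: (zs (List.range m) ++ [0]) with hL
  have hbw : bw P Q m = Bw (RL P Q) (BB L) := rfl
  have hR := nodup_RL hPQ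
  have hSF : ∀ r ∈ RL P Q, SFr (BB L r) := by
    intro r _ c hc
    unfold BB at hc
    by_cases hr : r = 0
    · rw [if_pos hr, hL, List.mem_cons, List.mem_append, mem_zs, List.mem_singleton] at hc
      rcases hc with rfl | ⟨e, _, rfl⟩ | rfl
      · omega
      · omega
      · omega
    · rw [if_neg hr, List.mem_singleton] at hc
      omega
  have hw0 := hw
  rw [hbw] at hw
  obtain ⟨B', e, hB', he, rfl⟩ := hDEC β h3 (RL P Q) (BB L) w' hR hSF hw
  -- the number of the letters in the blocks of `bw`
  have hc1 : ∀ i < m, ∀ q ∈ RL P Q, (BB L q).count (3 * i + 1) =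
      if q = 0 ∨ q = i + 1 then 1 else 0 := by
    intro i hi q hq
    unfold BB
    by_cases hq0 : q = 0
    · rw [if_pos hq0, if_pos (Or.inl hq0), hL, List.count_cons_of_ne (by omega),
        List.count_append, count_zs hi, List.count_eq_zero.2]
      rw [List.mem_singleton]
      omega
    · rw [if_neg hq0]
      by_cases hqi : q = i + 1
      · rw [if_pos (Or.inr hqi), hqi]
        simp
      · rw [if_neg (by tauto), List.count_eq_zero]
        rw [List.mem_singleton]
        omega
  have hc0 : ∀ q ∈ RL P Q, (BB L q).count 0 = if q = 0 then 2 else 0 := by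
    intro q _
    unfold BB
    by_cases hq0 : q = 0
    · rw [if_pos hq0, if_pos hq0, hL, List.count_cons_self, List.count_append,
        List.count_eq_zero.2, List.count_singleton_self]
      rw [mem_zs]
      rintro ⟨e, _, he⟩
      omega
    · rw [if_neg hq0, if_neg hq0, List.count_eq_zero, List.mem_singleton]
      omega
  have hF : ∀ d, d ≠ 0 → (∀ q ∈ RL P Q, (B' q).count d = (BB L q).count d) ∧ e.count d = 0 := by
    intro d hd
    by_cases hd3 : d % 3 = 2
    · refine ⟨fun q hq => ?_, ?_⟩
      · rw [List.count_eq_zero.2 (fun h => hB' q d h hd3),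
          List.count_eq_zero.2 (fun h => hSF q hq d h hd3)]
      · exact List.count_eq_zero.2 (fun h => he d h hd3)
    · by_cases hdi : ∃ i < m, d = 3 * i + 1
      · obtain ⟨i, hi, rfl⟩ := hdi
        obtain ⟨h4, h5⟩ := hKP2 β h2 h3 (RL P Q) (BB L) B' e hR hSF (fun r _ => hB' r) he hw
          (3 * i + 1) 0 (i + 1) hd3 ((mem_RL hPQ).2 (by omega)) ((mem_RL hPQ).2 (by omega))
          (by omega) (hc1 i hi)
        exact ⟨fun q hq => (h4 q hq).trans (hc1 i hi q hq).symm, h5⟩
      · have hnot : d ∉ Bw (RL P Q) (BB L) := by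
          rw [mem_Bw]
          rintro ⟨r, hr, h4 | h4⟩
          · unfold BB at h4
            by_cases hr0 : r = 0
            · rw [if_pos hr0, hL, List.mem_cons, List.mem_append, mem_zs,
                List.mem_singleton] at h4
              rcases h4 with h5 | ⟨i, hi, h5⟩ | h5
              · exact hd h5
              · exact hdi ⟨i, List.mem_range.1 hi, h5.symm⟩
              · exact hd h5
            · rw [if_neg hr0, List.mem_singleton] at h4
              have := (mem_RL hPQ).1 hr
              exact hdi ⟨r - 1, by omega, h4⟩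
          · omega
        have hnot' := hw.content h3 hnot
        rw [List.mem_append, mem_Bw] at hnot'
        refine ⟨fun q hq => ?_, ?_⟩
        · rw [List.count_eq_zero.2, List.count_eq_zero.2]
          · intro h4
            exact hnot (mem_Bw.2 ⟨q, hq, Or.inl h4⟩)
          · intro h4
            exact hnot' (Or.inl ⟨q, hq, Or.inl h4⟩)
        · exact List.count_eq_zero.2 (fun h4 => hnot' (Or.inr h4))
  have hzero : 0 ∈ RL P Q := (mem_RL hPQ).2 (Nat.zero_le m)
  -- the blocks without the letters `0`
  have hblk : ∀ q ∈ RL P Q, q ≠ 0 →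
      (B' q).filter (fun c => decide (c ≠ 0)) = [3 * (q - 1) + 1] := by
    intro q hq hq0
    rw [← List.perm_singleton, List.perm_iff_count]
    intro d
    rw [count_filter_ne]
    by_cases hd : d = 0
    · rw [if_pos hd, List.count_eq_zero.2]
      rw [List.mem_singleton]
      omega
    · rw [if_neg hd, (hF d hd).1 q hq]
      unfold BB
      rw [if_neg hq0]
  have hmain : ((B' 0).filter (fun c => decide (c ≠ 0))).Perm (zs (List.range m)) := by
    rw [List.perm_iff_count]
    intro d
    rw [count_filter_ne]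
    by_cases hd : d = 0
    · rw [if_pos hd, List.count_eq_zero.2]
      rw [mem_zs]
      rintro ⟨i, _, hi⟩
      omega
    · rw [if_neg hd, (hF d hd).1 0 hzero]
      unfold BB
      rw [if_pos rfl, hL, List.count_cons_of_ne (Ne.symm hd), List.count_append,
        List.count_eq_zero (l := [0]).2, Nat.add_zero]
      rw [List.mem_singleton]
      exact hd
  have hright : SQ β → (∃ A C : List ℕ, Bw (RL P Q) B' ++ e = A ++ 0 :: 0 :: C ∨
      ∃ e' < m, Bw (RL P Q) B' ++ e = A ++ 0 :: (3 * e' + 1) :: 0 :: C) →
      (SQ β ∧ ∃ D' : List ℕ, D'.Perm (List.range m) ∧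
      (Bw (RL P Q) B' ++ e).filter (fun c => decide (c ≠ 0)) = Wm P Q (zs D') ∧
      ∃ A C : List ℕ, Bw (RL P Q) B' ++ e = A ++ 0 :: 0 :: C ∨
        ∃ e' < m, Bw (RL P Q) B' ++ e = A ++ 0 :: (3 * e' + 1) :: 0 :: C) := by
    intro hSQ hAC
    refine ⟨hSQ, ((B' 0).filter (fun c => decide (c ≠ 0))).map (fun c => c / 3), ?_, ?_, hAC⟩
    · have h4 := hmain.map (fun c => c / 3)
      have h5 : (zs (List.range m)).map (fun c => c / 3) = List.range m := by
        unfold zs
        rw [List.map_map]
        have : (fun c => c / 3) ∘ (fun e => 3 * e + 1) = (id : ℕ → ℕ) := by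
          funext x
          simp only [Function.comp, id]
          omega
        rw [this, List.map_id]
      rw [h5] at h4
      exact h4
    · have h6 : zs (((B' 0).filter (fun c => decide (c ≠ 0))).map (fun c => c / 3)) =
          (B' 0).filter (fun c => decide (c ≠ 0)) := by
        unfold zs
        rw [List.map_map]
        conv_rhs => rw [← List.map_id ((B' 0).filter (fun c => decide (c ≠ 0)))]
        apply List.map_congr_left
        intro c hc
        rw [hmain.mem_iff, mem_zs] at hc
        obtain ⟨i, _, rfl⟩ := hc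
        simp only [Function.comp, id]
        omega
      rw [List.filter_append, filter_Bw _ _ _ (fun r => by simp), Wm_eq, h6]
      have h7 : e.filter (fun c => decide (c ≠ 0)) = [] := by
        rw [List.filter_eq_nil_iff]
        intro c hc hc0
        have hc0 : c ≠ 0 := by simpa using hc0
        exact List.count_eq_zero.1 (hF c hc0).2 hc
      rw [h7, List.append_nil]
      apply Bw_congr
      intro r hr
      unfold BB
      by_cases hr0 : r = 0
      · rw [if_pos hr0, hr0]
      · rw [if_neg hr0]
        exact hblk r hr hr0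
  rcases hKPL β h2 h3 (RL P Q) (BB L) B' e hR hSF (fun r _ => hB' r) he hw 0 0 (by omega) hzero hc0
    with ⟨⟨s, hs, hs2, hs3⟩, he0⟩ | ⟨_, he2, hSQ⟩
  · have hecount : ∀ d, e.count d = 0 := by
      intro d
      by_cases hd : d = 0
      · rw [hd]
        exact he0
      · exact (hF d hd).2
    have henil : e = [] := by
      rw [List.eq_nil_iff_forall_not_mem]
      intro a ha
      exact List.count_eq_zero.1 (hecount a) ha
    by_cases hs0 : s = 0
    · left
      subst hs0
      have hperm : ∀ q ∈ RL P Q, (B' q).Perm (BB L q) := by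
        intro q hq
        rw [List.perm_iff_count]
        intro d
        by_cases hd : d = 0
        · rw [hd, hs2 q hq, hc0 q hq]
        · exact (hF d hd).1 q hq
      refine ⟨B' 0, hperm 0 hzero, ?_⟩
      rw [henil, List.append_nil, Wm_eq]
      apply Bw_congr
      intro r hr
      have h4 := hperm r hr
      unfold BB at h4 ⊢
      by_cases hr0 : r = 0
      · rw [if_pos hr0, hr0]
      · rw [if_neg hr0] at h4 ⊢
        exact List.perm_singleton.1 h4
    · right
      have hSQ : SQ β := hs3.resolve_left hs0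
      apply hright hSQ
      have hsm := (mem_RL hPQ).1 hs
      obtain ⟨R1, R2, hR12⟩ := List.append_of_mem hs
      have hcs : (B' s).count 0 = 2 := by
        rw [hs2 s hs, if_pos rfl]
      rw [hR12, Bw_split]
      rcases two_zero (hblk s hs hs0) (by omega) hcs with h4 | h4 | h4
      · refine ⟨Bw R1 B' ++ [3 * (s - 1) + 1], (3 * s + 2) :: Bw R2 B' ++ e, Or.inl ?_⟩
        rw [h4]
        simp
      · refine ⟨Bw R1 B', (3 * s + 2) :: Bw R2 B' ++ e, Or.inr ⟨s - 1, by omega, ?_⟩⟩
        rw [h4]
        simp
      · refine ⟨Bw R1 B', (3 * (s - 1) + 1) :: ((3 * s + 2) :: Bw R2 B' ++ e), Or.inl ?_⟩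
        rw [h4]
        simp
  · right
    apply hright hSQ
    have he' : e = [0, 0] := by
      have h4 : e.Perm (List.replicate 2 0) := by
        rw [List.perm_iff_count]
        intro d
        by_cases hd : d = 0
        · rw [hd, he2, List.count_replicate_self]
        · rw [(hF d hd).2, List.count_eq_zero.2]
          intro h5
          exact hd (List.eq_of_mem_replicate h5)
      exact List.perm_replicate.1 h4
    exact ⟨Bw (RL P Q) B', [], Or.inl (by rw [he'])⟩

end Pool.Agent.MVD.H44
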