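import Pool.Agent.MVD.StmtsLoc
import Pool.Agent.Helper23_MVD.ECN

/-!
# Squad MVD, row GCN: canonical words for `GF` (author helper44)

The tools `mv`, `gr`, `last_split`, `rn`, `hh` are those of row ECN (helper23).
-/

set_option autoImplicit false

namespace Pool.Agent.MVD.H44.Gcn

open Pool.Agent.Helper14_MV Pool.Agent.Helper2_MV Pool.Agent.MVD Pool.Agent.MVD.H23.Ecn

variable {β : FIC}

theorem three (y a : ℕ) (h : 1 ≤ [y, y, y].count a) : [y, y, y].count a = 3 := by
  have h1 : a ∈ [y, y, y] := List.count_pos_iff.1 (by omega)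
  have h2 : a = y := by simpa using h1
  subst h2
  simp

theorem cnt5 (p A c T q : List ℕ) (a : ℕ) : (p ++ (A ++ (c ++ (T ++ q)))).count a =
    p.count a + (A.count a + (c.count a + (T.count a + q.count a))) := by
  rw [List.count_append, List.count_append, List.count_append, List.count_append]

/-- the letters of the middle part are multiple -/
theorem mid {p A c T q : List ℕ} {y : ℕ}
    (hAT : ∀ a, A.count a + T.count a = [y, y, y].count a)
    (hm : ∀ a ∈ c, 2 ≤ p.count a + ([y, y, y].count a + (c.count a + q.count a)))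
    (a : ℕ) (ha : a ∈ A ∨ a ∈ c ∨ a ∈ T) :
    2 ≤ p.count a + (A.count a + (c.count a + (T.count a + q.count a))) := by
  have h0 := hAT a
  rcases ha with h | h | h
  · have h1 : 1 ≤ A.count a := List.count_pos_iff.2 h
    have h2 := three y a (by omega)
    omega
  · have h1 := hm a h
    omega
  · have h1 : 1 ≤ T.count a := List.count_pos_iff.2 h
    have h2 := three y a (by omega)
    omega

theorem kd1 (hs : S2 β) (p A c1 c2 T q : List ℕ) (y v : ℕ)
    (hAT : ∀ a, A.count a + T.count a = [y, y, y].count a)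
    (hm : ∀ a ∈ c1 ++ v :: c2,
      2 ≤ p.count a + ([y, y, y].count a + ((c1 ++ v :: c2).count a + q.count a)))
    (hv : v ∈ p) (hv' : v ∈ c2 ∨ v ∈ q) :
    RR β (p ++ (A ++ ((c1 ++ v :: c2) ++ (T ++ q))))
      ((p ++ [v]) ++ (A ++ ((c1 ++ c2) ++ (T ++ q)))) := by
  have e1 : p ++ (A ++ ((c1 ++ v :: c2) ++ (T ++ q))) =
      p ++ ((A ++ c1) ++ v :: (c2 ++ (T ++ q))) := by simp
  have e2 : (p ++ [v]) ++ (A ++ ((c1 ++ c2) ++ (T ++ q))) =
      p ++ v :: ((A ++ c1) ++ (c2 ++ (T ++ q))) := by simp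
  have h1 := mv hs v (A ++ c1) p (c2 ++ (T ++ q)) hv (by
    rcases hv' with h | h
    · exact List.mem_append_left _ h
    · exact List.mem_append_right _ (List.mem_append_right _ h)) (by
    intro a ha
    rw [← e1]
    have h2 := mid hAT hm a (by
      rcases List.mem_append.1 ha with h | h
      · exact Or.inl h
      · exact Or.inr (Or.inl (List.mem_append_left _ h)))
    rw [cnt5]
    exact h2)
  rw [e1, e2]
  exact h1

theorem kd2 (hs : S2 β) (p A c1 c2 T q : List ℕ) (y v : ℕ)
    (hAT : ∀ a, A.count a + T.count a = [y, y, y].count a)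
    (hm : ∀ a ∈ c1 ++ v :: c2,
      2 ≤ p.count a + ([y, y, y].count a + ((c1 ++ v :: c2).count a + q.count a)))
    (hv : v ∈ q) (hv' : v ∈ p ∨ v ∈ c1) :
    RR β (p ++ (A ++ ((c1 ++ v :: c2) ++ (T ++ q))))
      (p ++ (A ++ ((c1 ++ c2) ++ (T ++ v :: q)))) := by
  have e1 : p ++ (A ++ ((c1 ++ v :: c2) ++ (T ++ q))) =
      (p ++ (A ++ c1)) ++ v :: ((c2 ++ T) ++ q) := by simp
  have e2 : p ++ (A ++ ((c1 ++ c2) ++ (T ++ v :: q))) =
      (p ++ (A ++ c1)) ++ ((c2 ++ T) ++ v :: q) := by simp
  have h1 := mv hs v (c2 ++ T) (p ++ (A ++ c1)) q (by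
    rcases hv' with h | h
    · exact List.mem_append_left _ h
    · exact List.mem_append_right _ (List.mem_append_right _ h)) hv (by
    intro a ha
    have h2 := mid hAT hm a (by
      rcases List.mem_append.1 ha with h | h
      · exact Or.inr (Or.inl (List.mem_append_right _ (List.mem_cons_of_mem _ h)))
      · exact Or.inr (Or.inr h))
    have h3 : ((p ++ (A ++ c1)) ++ ((c2 ++ T) ++ v :: q)).count a =
        p.count a + (A.count a + ((c1 ++ v :: c2).count a + (T.count a + q.count a))) := by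
      have e3 : ∀ l : List ℕ, v :: l = [v] ++ l := fun l => rfl
      rw [e3 q, e3 c2]
      simp only [List.count_append]
      omega
    rw [h3]
    exact h2)
  rw [e1, e2]
  exact h1.symm

/-- a letter of the middle which occurs in `p` -/
theorem sd1 (hs : S2 β) (n : ℕ) (hG : GF β n) (p c1 c2 q : List ℕ) (y v : ℕ)
    (hl : (c1 ++ v :: c2).length ≤ n + 1) (hy : y ∉ c1 ++ v :: c2)
    (hm : ∀ a ∈ c1 ++ v :: c2,
      2 ≤ p.count a + ([y, y, y].count a + ((c1 ++ v :: c2).count a + q.count a)))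
    (hv : v ∈ p) (hv' : v ∈ c2 ∨ v ∈ q) :
    RR β (p ++ ([y] ++ ((c1 ++ v :: c2) ++ ([y, y] ++ q))))
      (p ++ ([y, y, y] ++ ((c1 ++ v :: c2) ++ ([] ++ q)))) := by
  have h1 := kd1 hs p [y] c1 c2 [y, y] q y v (by
    intro a
    rw [← List.count_append]
    rfl) hm hv hv'
  have h2 := kd1 hs p [y, y, y] c1 c2 [] q y v (by
    intro a
    rw [← List.count_append]
    rfl) hm hv hv'
  have hlen : (c1 ++ c2).length ≤ n := by
    simp only [List.length_append, List.length_cons] at hl ⊢
    omega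
  have h3 := hG (p ++ [v]) (c1 ++ c2) q y hlen (by
    simp only [List.mem_append, List.mem_cons, not_or] at hy ⊢
    tauto) (by
    intro a ha
    have h4 := hm a (by
      rcases List.mem_append.1 ha with h | h
      · exact List.mem_append_left _ h
      · exact List.mem_append_right _ (List.mem_cons_of_mem _ h))
    have e3 : y :: (c1 ++ c2 ++ y :: y :: q) = [y] ++ ((c1 ++ c2) ++ ([y, y] ++ q)) := rfl
    have e4 : c1 ++ v :: c2 = c1 ++ ([v] ++ c2) := rfl
    have e5 : [y, y, y] = [y] ++ [y, y] := rfl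
    rw [e3]
    rw [e4, e5] at h4
    simp only [List.count_append] at h4 ⊢
    omega)
  exact fin3 h1 h3 h2

/-- a letter of the middle which occurs in `q` -/
theorem sd2 (hs : S2 β) (n : ℕ) (hG : GF β n) (p c1 c2 q : List ℕ) (y v : ℕ)
    (hl : (c1 ++ v :: c2).length ≤ n + 1) (hy : y ∉ c1 ++ v :: c2)
    (hm : ∀ a ∈ c1 ++ v :: c2,
      2 ≤ p.count a + ([y, y, y].count a + ((c1 ++ v :: c2).count a + q.count a)))
    (hv : v ∈ q) (hv' : v ∈ p ∨ v ∈ c1) :
    RR β (p ++ ([y] ++ ((c1 ++ v :: c2) ++ ([y, y] ++ q))))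
      (p ++ ([y, y, y] ++ ((c1 ++ v :: c2) ++ ([] ++ q)))) := by
  have h1 := kd2 hs p [y] c1 c2 [y, y] q y v (by
    intro a
    rw [← List.count_append]
    rfl) hm hv hv'
  have h2 := kd2 hs p [y, y, y] c1 c2 [] q y v (by
    intro a
    rw [← List.count_append]
    rfl) hm hv hv'
  have hlen : (c1 ++ c2).length ≤ n := by
    simp only [List.length_append, List.length_cons] at hl ⊢
    omega
  have h3 := hG p (c1 ++ c2) (v :: q) y hlen (by
    simp only [List.mem_append, List.mem_cons, not_or] at hy ⊢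
    tauto) (by
    intro a ha
    have h4 := hm a (by
      rcases List.mem_append.1 ha with h | h
      · exact List.mem_append_left _ h
      · exact List.mem_append_right _ (List.mem_cons_of_mem _ h))
    have e3 : y :: (c1 ++ c2 ++ y :: y :: v :: q) =
        [y] ++ ((c1 ++ c2) ++ ([y, y] ++ ([v] ++ q))) := rfl
    have e4 : c1 ++ v :: c2 = c1 ++ ([v] ++ c2) := rfl
    have e5 : [y, y, y] = [y] ++ [y, y] := rfl
    rw [e3]
    rw [e4, e5] at h4
    simp only [List.count_append] at h4 ⊢
    omega)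
  exact fin3 h1 h3 h2

/-- the gathering of a local letter with `k` occurrences and the motion to the right -/
theorem ke (hGfk : GfkStmt) (hs : S2 β) (n : ℕ) (hG : GF β n) (p A T q : List ℕ) (y : ℕ)
    (c c1 e1 d2 : List ℕ) (v : ℕ) (hAT : ∀ a, A.count a + T.count a = [y, y, y].count a)
    (hvy : v ≠ y) (hvT : v ∉ T) (hc : c = c1 ++ v :: (e1 ++ v :: d2)) (hv2 : v ∉ d2)
    (hk : 1 ≤ e1.count v) (hT : T.length ≤ 2) (hl : c.length ≤ n + 1)
    (hm : ∀ a ∈ c, 2 ≤ p.count a + ([y, y, y].count a + (c.count a + q.count a))) :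
    RR β (p ++ (A ++ (c ++ (T ++ q))))
      (p ++ (A ++ ((c1 ++ v :: (e1.filter (fun b => decide (b ≠ v)) ++ d2)) ++
        (T ++ (List.replicate (e1.count v + 1) v ++ q))))) := by
  obtain ⟨j, hj⟩ : ∃ j, j = e1.count v := ⟨_, rfl⟩
  obtain ⟨d1, hd1⟩ : ∃ d1, d1 = e1.filter (fun b => decide (b ≠ v)) := ⟨_, rfl⟩
  have hd1v : v ∉ d1 := by
    rw [hd1]
    intro h
    exact (mem_fil h).2 rfl
  have hd1c : ∀ a, a ≠ v → d1.count a = e1.count a := by
    intro a ha
    rw [hd1]
    exact cnt_fil _ _ _ ha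
  have hd1l : d1.length + j = e1.length := by
    rw [hd1, hj]
    exact len_fil _ _
  have hd1m : ∀ a ∈ d1, a ∈ c ∧ a ≠ v := by
    intro a ha
    rw [hd1] at ha
    obtain ⟨h1, h2⟩ := mem_fil ha
    refine ⟨?_, h2⟩
    rw [hc]
    simp [h1]
  have hcc : ∀ a, a ≠ v → c.count a = c1.count a + (d1.count a + d2.count a) := by
    intro a ha
    rw [hc, List.count_append, cnt_cons v a _ ha, List.count_append, cnt_cons v a _ ha,
      hd1c a ha]
  have hcl : c.length = c1.length + (e1.length + (d2.length + 1) + 1) := by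
    rw [hc]
    simp only [List.length_append, List.length_cons]
  have hmid : ∀ a, a ∈ A ∨ a ∈ c ∨ a ∈ T → a ≠ v → 2 ≤ p.count a + (A.count a + (c1.count a +
      (d1.count a + (d2.count a + (T.count a + q.count a))))) := by
    intro a ha hav
    have h1 := mid hAT hm a ha
    rw [hcc a hav] at h1
    omega
  rw [← hj, ← hd1]
  rw [← hj] at hk
  -- gather
  have s1 : p ++ (A ++ (c ++ (T ++ q))) =
      (p ++ (A ++ (c1 ++ [v]))) ++ (e1 ++ (v :: (d2 ++ (T ++ q)))) := by
    rw [hc]
    simp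
  have g1 := gr hs v e1 (p ++ (A ++ (c1 ++ [v]))) (v :: (d2 ++ (T ++ q))) (by simp) (by simp) (by
    intro a ha hav
    rw [← s1, List.count_append, List.count_append, List.count_append, List.count_append]
    exact mid hAT hm a (Or.inr (Or.inl (by
      rw [hc]
      simp [ha]))))
  rw [← s1, ← hd1, ← hj] at g1
  have s2 : (p ++ (A ++ (c1 ++ [v]))) ++ (d1 ++ (List.replicate j v ++ v :: (d2 ++ (T ++ q)))) =
      (p ++ (A ++ c1)) ++ v :: (d1 ++ (List.replicate (j + 2 - 1) v ++ (d2 ++ (T ++ q)))) := by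
    have e3 : j + 2 - 1 = j + 1 := by omega
    rw [e3, List.replicate_succ']
    simp
  rw [s2] at g1
  have g2 := hGfk β hs n hG (p ++ (A ++ c1)) d1 (d2 ++ (T ++ q)) v (j + 2) (by omega) (by omega)
    hd1v (by
      intro a ha
      obtain ⟨h1, h2⟩ := hd1m a ha
      have h3 := hmid a (Or.inr (Or.inl h1)) h2
      simp only [List.count_append, List.count_cons] at h3 ⊢
      omega)
  have g3 := hGfk β hs n hG (p ++ (A ++ c1)) (d1 ++ (d2 ++ T)) q v (j + 2) (by omega) (by
      simp only [List.length_append]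
      omega) (by
      simp only [List.mem_append, not_or]
      exact ⟨hd1v, hv2, hvT⟩) (by
      intro a ha
      have h2 : a ≠ v := by
        rintro rfl
        simp only [List.mem_append] at ha
        tauto
      have h1 : a ∈ A ∨ a ∈ c ∨ a ∈ T := by
        simp only [List.mem_append] at ha
        rcases ha with h | h | h
        · exact Or.inr (Or.inl (hd1m a h).1)
        · refine Or.inr (Or.inl ?_)
          rw [hc]
          simp [h]
        · exact Or.inr (Or.inr h)
      have h3 := hmid a h1 h2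
      simp only [List.count_append, List.count_cons] at h3 ⊢
      omega)
  have s3 : (p ++ (A ++ c1)) ++ (List.replicate (j + 2) v ++ ((d1 ++ (d2 ++ T)) ++ q)) =
      (p ++ (A ++ c1)) ++ (List.replicate (j + 2) v ++ (d1 ++ (d2 ++ (T ++ q)))) := by simp
  rw [s3] at g3
  have s4 : (p ++ (A ++ c1)) ++ v :: ((d1 ++ (d2 ++ T)) ++ (List.replicate (j + 2 - 1) v ++ q)) =
      p ++ (A ++ ((c1 ++ v :: (d1 ++ d2)) ++ (T ++ (List.replicate (j + 1) v ++ q)))) := by
    have e3 : j + 2 - 1 = j + 1 := by omega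
    rw [e3]
    simp
  rw [s4] at g3
  exact fin3 g1 g2 g3

/-- a local letter with at least three occurrences -/
theorem se (hGfk : GfkStmt) (hs : S2 β) (n : ℕ) (hG : GF β n) (p c q : List ℕ) (y v : ℕ)
    (hl : c.length ≤ n + 1) (hy : y ∉ c)
    (hm : ∀ a ∈ c, 2 ≤ p.count a + ([y, y, y].count a + (c.count a + q.count a)))
    (hk : 3 ≤ c.count v) :
    RR β (p ++ ([y] ++ (c ++ ([y, y] ++ q)))) (p ++ ([y, y, y] ++ (c ++ ([] ++ q)))) := by
  have hvc : v ∈ c := List.count_pos_iff.1 (by omega)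
  have hvy : v ≠ y := fun h => hy (h ▸ hvc)
  obtain ⟨c1, c2, hc, hv1⟩ := List.eq_append_cons_of_mem hvc
  have hc1 : c1.count v = 0 := List.count_eq_zero.2 hv1
  have hk2 : c.count v = c2.count v + 1 := by
    rw [hc, List.count_append, List.count_cons_self, hc1]
    omega
  have hvc2 : v ∈ c2 := List.count_pos_iff.1 (by omega)
  obtain ⟨e1, d2, hc2, hv2⟩ := last_split hvc2
  have hd2 : d2.count v = 0 := List.count_eq_zero.2 hv2
  have hk3 : c2.count v = e1.count v + 1 := by
    rw [hc2, List.count_append, List.count_cons_self, hd2]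
  rw [hc2] at hc
  have k1 := ke hGfk hs n hG p [y] [y, y] q y c c1 e1 d2 v (by
    intro a
    rw [← List.count_append]
    rfl) hvy (by simpa using hvy) hc hv2 (by omega) le_rfl hl hm
  have k2 := ke hGfk hs n hG p [y, y, y] [] q y c c1 e1 d2 v (by
    intro a
    rw [← List.count_append]
    rfl) hvy (by simp) hc hv2 (by omega) (by simp) hl hm
  obtain ⟨d1, hd1⟩ : ∃ d1, d1 = e1.filter (fun b => decide (b ≠ v)) := ⟨_, rfl⟩
  rw [← hd1] at k1 k2
  have hd1l : d1.length + e1.count v = e1.length := by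
    rw [hd1]
    exact len_fil _ _
  have hd1m : ∀ a ∈ d1, a ∈ e1 := by
    intro a ha
    rw [hd1] at ha
    exact (mem_fil ha).1
  have hcl : c.length = c1.length + (e1.length + (d2.length + 1) + 1) := by
    rw [hc]
    simp only [List.length_append, List.length_cons]
  have hsub : ∀ a ∈ c1 ++ v :: (d1 ++ d2), a ∈ c := by
    intro a ha
    rw [hc]
    simp only [List.mem_append, List.mem_cons] at ha ⊢
    rcases ha with h | h | h | h
    · exact Or.inl h
    · exact Or.inr (Or.inl h)
    · exact Or.inr (Or.inr (Or.inl (hd1m a h)))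
    · exact Or.inr (Or.inr (Or.inr (Or.inr h)))
  have h3 := hG p (c1 ++ v :: (d1 ++ d2)) (List.replicate (e1.count v + 1) v ++ q) y (by
    simp only [List.length_append, List.length_cons]
    omega) (fun h => hy (hsub _ h)) (by
    intro a ha
    have e3 : y :: (c1 ++ v :: (d1 ++ d2) ++ y :: y :: (List.replicate (e1.count v + 1) v ++ q)) =
        [y] ++ ((c1 ++ ([v] ++ (d1 ++ d2))) ++ ([y, y] ++
          (List.replicate (e1.count v + 1) v ++ q))) := rfl
    rw [e3]
    by_cases hav : a = v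
    · subst hav
      have h2 : List.count a (List.replicate (e1.count a + 1) a) = e1.count a + 1 :=
        List.count_replicate_self
      simp only [List.count_append, h2]
      omega
    · have h4 := hm a (hsub a ha)
      have h5 : c.count a = c1.count a + (d1.count a + d2.count a) := by
        rw [hc, List.count_append, cnt_cons v a _ hav, List.count_append, cnt_cons v a _ hav, hd1,
          cnt_fil _ _ _ hav]
      have e5 : [y, y, y] = [y] ++ [y, y] := rfl
      rw [h5, e5, List.count_append] at h4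
      simp only [List.count_append]
      omega)
  exact fin3 k1 h3 k2

/-- canonical words -/
theorem sf (hInx : InxStmt) (n : ℕ)
    (hcan : ∀ P Q γ : List ℕ, Can P Q γ → γ.length ≤ n + 1 →
      RR β (Wm P Q (0 :: (γ ++ [0, 0]))) (Wm P Q (0 :: 0 :: 0 :: γ)))
    (p c q : List ℕ) (y : ℕ) (hl : c.length ≤ n + 1)
    (h1 : ∀ v ∈ c, v ∈ p ∨ v ∈ q → c.count v = 1)
    (h2 : ∀ v ∈ c, ¬ (v ∈ p ∨ v ∈ q) → c.count v = 2) :
    RR β (p ++ ([y] ++ (c ++ ([y, y] ++ q)))) (p ++ ([y, y, y] ++ (c ++ ([] ++ q)))) := by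
  obtain ⟨D, hD⟩ : ∃ D, D = c.filter (fun v => decide (v ∈ p ∨ v ∈ q)) := ⟨_, rfl⟩
  have hDm : ∀ v, v ∈ D ↔ v ∈ c ∧ (v ∈ p ∨ v ∈ q) := by
    intro v
    rw [hD, List.mem_filter]
    simp
  have hDn : D.Nodup := by
    rw [List.nodup_iff_count_le_one]
    intro v
    by_cases hv : v ∈ D
    · have h3 := (hDm v).1 hv
      have h4 := h1 v h3.1 h3.2
      have h5 : D.count v ≤ c.count v := by
        rw [hD]
        exact List.Sublist.count_le v List.filter_sublist
      omega
    · rw [List.count_eq_zero.2 hv]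
      omega
  obtain ⟨P, Q, g, M, hperm, hL, hgh, hgD⟩ := hInx p q D (hh y) hDn
    (fun a ha => ((hDm a).1 ha).2)
  have hmem : ∀ i, i ∈ P ++ Q ↔ i < D.length := by
    intro i
    rw [hperm.mem_iff, List.mem_range]
  have hnd : (P ++ Q).Nodup := hperm.nodup_iff.2 List.nodup_range
  -- the main block
  have hα : (c.map (rn D)).flatMap g = c := by
    have h3 : ∀ l : List ℕ, (∀ v ∈ l, v ∈ c) → (l.map (rn D)).flatMap g = l := by
      intro l
      induction l with
      | nil => intro _; rfl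
      | cons v l ih =>
        intro hl
        rw [List.map_cons, List.flatMap_cons, ih fun w hw => hl w (List.mem_cons_of_mem _ hw)]
        have h4 : g (rn D v) = [v] := by
          by_cases hv : v ∈ D
          · have h5 : rn D v = 3 * D.idxOf v + 1 := if_pos hv
            rw [h5, hgD _ (List.idxOf_lt_length_iff.2 hv), List.getElem_idxOf]
          · have h5 : rn D v = 27 + 3 * v := if_neg hv
            rw [h5, hgh _ (by omega)]
            unfold hh
            rw [if_neg (by omega)]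
            congr 1
            omega
        rw [h4]
        rfl
    exact h3 c fun v hv => hv
  have hcanα : Can P Q (c.map (rn D)) := by
    refine ⟨hnd, ?_, ?_, ?_, ?_⟩
    · intro a ha
      obtain ⟨v, _, rfl⟩ := List.mem_map.1 ha
      unfold rn
      split_ifs <;> omega
    · intro i hi
      have hi' := (hmem i).1 hi
      have h3 : D[i] ∈ D := List.getElem_mem hi'
      have h4 : rn D D[i] = 3 * i + 1 := by
        have h5 : rn D D[i] = 3 * D.idxOf D[i] + 1 := if_pos h3
        rw [h5, hDn.idxOf_getElem i hi']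
      rw [← h4, List.count_map_of_injective _ _ (rn_inj D)]
      have h6 := (hDm _).1 h3
      exact h1 _ h6.1 h6.2
    · intro a ha ha3
      obtain ⟨v, _, rfl⟩ := List.mem_map.1 ha
      by_cases hv : v ∈ D
      · have h5 : rn D v = 3 * D.idxOf v + 1 := if_pos hv
        exact ⟨D.idxOf v, (hmem _).2 (List.idxOf_lt_length_iff.2 hv), h5⟩
      · have h5 : rn D v = 27 + 3 * v := if_neg hv
        rw [h5] at ha3
        omega
    · intro a ha ha3
      obtain ⟨v, hvc, rfl⟩ := List.mem_map.1 ha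
      by_cases hv : v ∈ D
      · have h5 : rn D v = 3 * D.idxOf v + 1 := if_pos hv
        rw [h5] at ha3
        omega
      · have h5 : rn D v = 27 + 3 * v := if_neg hv
        refine ⟨?_, by omega⟩
        rw [List.count_map_of_injective _ _ (rn_inj D)]
        refine h2 v hvc fun h6 => hv ((hDm v).2 ⟨hvc, h6⟩)
  have h3 := hcan P Q (c.map (rn D)) hcanα (by rw [List.length_map]; exact hl)
  have h4 := (RR.refl (β := β) M).append (h3.sub g)
  rw [← hL, ← hL] at h4
  have g0 : g 0 = [y] := by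
    rw [hgh 0 rfl]
    rfl
  have f1 : (0 :: (c.map (rn D) ++ [0, 0])).flatMap g = y :: (c ++ [y, y]) := by
    rw [List.flatMap_cons, List.flatMap_append, hα, g0, List.flatMap_cons, List.flatMap_cons, g0]
    rfl
  have f2 : (0 :: 0 :: 0 :: c.map (rn D)).flatMap g = y :: y :: y :: c := by
    rw [List.flatMap_cons, List.flatMap_cons, List.flatMap_cons, hα, g0]
    rfl
  rw [f1, f2] at h4
  have f3 : p ++ (y :: (c ++ [y, y]) ++ q) = p ++ ([y] ++ (c ++ ([y, y] ++ q))) := by simp
  have f4 : p ++ (y :: y :: y :: c ++ q) = p ++ ([y, y, y] ++ (c ++ ([] ++ q))) := by simp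
  rw [f3, f4] at h4
  exact h4

end Pool.Agent.MVD.H44.Gcn

namespace Pool.Agent.MVD.H44

open Pool.Agent.Helper14_MV Pool.Agent.Helper2_MV Pool.Agent.MVD Pool.Agent.MVD.H23.Ecn

/-- **GCN** -/
theorem gcn (hInx : InxStmt) (hGfk : GfkStmt) : GcnStmt := by
  intro β n H hG hcan p c q y hl hy hm0
  have hs := H.s2
  -- short words
  by_cases hl0 : c.length ≤ n
  · exact hG p c q y hl0 hy hm0
  have hm : ∀ a ∈ c, 2 ≤ p.count a + ([y, y, y].count a + (c.count a + q.count a)) := by
    intro a ha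
    have h1 := hm0 a ha
    have e3 : y :: (c ++ y :: y :: q) = [y] ++ (c ++ ([y, y] ++ q)) := rfl
    have e5 : [y, y, y] = [y] ++ [y, y] := rfl
    rw [e3] at h1
    rw [e5]
    simp only [List.count_append] at h1 ⊢
    omega
  by_cases hd1 : ∃ c1 v c2, c = c1 ++ v :: c2 ∧ v ∈ p ∧ (v ∈ c2 ∨ v ∈ q)
  · obtain ⟨c1, v, c2, rfl, h1, h2⟩ := hd1
    exact Gcn.sd1 hs n hG p c1 c2 q y v hl hy hm h1 h2
  by_cases hd2 : ∃ c1 v c2, c = c1 ++ v :: c2 ∧ v ∈ q ∧ (v ∈ p ∨ v ∈ c1)
  · obtain ⟨c1, v, c2, rfl, h1, h2⟩ := hd2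
    exact Gcn.sd2 hs n hG p c1 c2 q y v hl hy hm h1 h2
  by_cases he : ∃ v ∈ c, 3 ≤ c.count v
  · obtain ⟨v, hv, hv3⟩ := he
    exact Gcn.se hGfk hs n hG p c q y v hl hy hm hv3
  refine Gcn.sf hInx n hcan p c q y hl ?_ ?_
  · intro v hv hpq
    have hpos : 1 ≤ c.count v := List.count_pos_iff.2 hv
    by_contra hne
    have hge : 2 ≤ c.count v := by omega
    rcases hpq with h | h
    · obtain ⟨c1, c2, hc, hv1⟩ := List.eq_append_cons_of_mem hv
      refine hd1 ⟨c1, v, c2, hc, h, Or.inl ?_⟩
      rw [hc, List.count_append, List.count_cons_self, List.count_eq_zero.2 hv1] at hge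
      exact List.count_pos_iff.1 (by omega)
    · obtain ⟨c1, c2, hc, hv1⟩ := last_split hv
      refine hd2 ⟨c1, v, c2, hc, h, Or.inr ?_⟩
      rw [hc, List.count_append, List.count_cons_self, List.count_eq_zero.2 hv1] at hge
      exact List.count_pos_iff.1 (by omega)
  · intro v hv hpq
    push Not at hpq
    have h1 := hm v hv
    have hvy : v ≠ y := fun h => hy (h ▸ hv)
    have h2 : ¬ 3 ≤ c.count v := fun h => he ⟨v, hv, h⟩
    have h3 : [y, y, y].count v = 0 := List.count_eq_zero.2 (by simpa using hvy)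
    rw [List.count_eq_zero.2 hpq.1, h3, List.count_eq_zero.2 hpq.2] at h1
    omega

end Pool.Agent.MVD.H44
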